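import Pool.Agent.H48.ER.Targets

/-!
# MP_816b90_co, row LEA: the leaves of the elimination tree
-/

set_option autoImplicit false

open Pool.Agent.H48.ER

namespace Pool.Agent.H20.ER

/-- a set with at most three elements -/
theorem three_cover {V : Type} [Finite V] (t : V) (U : Set V) (h : U.ncard ≤ 3) :
    ∃ x y z, ∀ w ∈ U, w = x ∨ w = y ∨ w = z := by
  have h4 : U.ncard = 0 ∨ U.ncard = 1 ∨ U.ncard = 2 ∨ U.ncard = 3 := by omega
  rcases h4 with h | h | h | h
  · rw [Set.ncard_eq_zero] at h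
    refine ⟨t, t, t, fun w hw => ?_⟩
    rw [h] at hw
    exact absurd hw (Set.notMem_empty w)
  · obtain ⟨x, rfl⟩ := Set.ncard_eq_one.1 h
    exact ⟨x, x, x, fun w hw => Or.inl hw⟩
  · obtain ⟨x, y, -, rfl⟩ := Set.ncard_eq_two.1 h
    refine ⟨x, y, y, fun w hw => ?_⟩
    rcases hw with hw | hw
    · exact Or.inl hw
    · exact Or.inr (Or.inl hw)
  · obtain ⟨x, y, z, -, -, -, rfl⟩ := Set.ncard_eq_three.1 h
    exact ⟨x, y, z, fun w hw => hw⟩

theorem pf_LEA (hM3 : T_M3) (hD3B : T_D3B) (hDEG : T_DEG) (hDES : T_DES) : T_LEA := by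
  intro V _ G S H f t hC htS hleaf
  obtain ⟨-, -, -, d4, d5, -⟩ := hDES V H f hC.peo t
  -- the neighbours are later
  have hup : ∀ w, G.Adj t w → w ∈ upper H f t := by
    intro w hw
    have hH : H.Adj t w := hC.le hw
    refine ⟨hH, ?_⟩
    rcases lt_trichotomy (f w) (f t) with h | h | h
    · obtain ⟨u, hu, _⟩ := d4 w hH h
      exact absurd hu (hleaf u)
    · exact absurd (hC.peo.inj h).symm hH.ne
    · exact h
  have hcard := hC.peo.card t
  obtain ⟨x0, y0, z0, h0⟩ := three_cover t (upper H f t) hcard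
  obtain ⟨x, y, z, hN, hxz, hyz, axy, nxz, nyz, exz, eyz⟩ :=
    hM3 V G S t x0 y0 z0 hC.mc htS (fun w hw => h0 w (hup w hw))
  obtain ⟨a, b, n, P, hE, ha0, ha1, ha2, hz⟩ :=
    hD3B V G t x y z hC.mc.noh hC.mc.nop hN axy nxz nyz hxz hyz exz eyz
  have hP : Prism G a b n P := hE.1
  obtain ⟨g1, -, -⟩ := hDEG V G a b n P hP
  choose r hr1 hr2 hr3 using g1
  have hupeq : ({x, y, z} : Set V) = upper H f t := by
    refine Set.eq_of_subset_of_ncard_le ?_ ?_ (Set.toFinite _)
    · rintro w (h | h | h)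
      · exact hup w ((hN w).2 (Or.inl h))
      · exact hup w ((hN w).2 (Or.inr (Or.inl h)))
      · exact hup w ((hN w).2 (Or.inr (Or.inr h)))
    · have h3 : ({x, y, z} : Set V).ncard = 3 :=
        Set.ncard_eq_three.2 ⟨x, y, z, axy.ne, hxz, hyz, rfl⟩
      rw [h3]
      exact hcard
  have hdn : dn H f t = {t} := by
    ext w
    rw [d5 w]
    constructor
    · rintro (h | ⟨u, hu, _⟩)
      · exact h
      · exact absurd hu (hleaf u)
    · intro h
      exact Or.inl h
  have hz0 : z = r 0 := by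
    have h1 : G.Adj (a 0) z := by
      rw [ha0]
      exact (hN z).2 (Or.inr (Or.inr rfl))
    rcases (hr3 0 z (mem_ver hz)).1 h1 with h | ⟨j, hj, h⟩
    · exact h
    · exact absurd (hP.rung hz (h ▸ hP.a_mem j)) (Ne.symm hj)
  refine ⟨a, b, n, P, r, {0}, hE, ?_, ⟨0, Finset.mem_singleton_self 0⟩, ?_, ?_, ?_⟩
  · intro i
    exact ⟨(hr3 i (r i) (mem_ver (hr1 i))).2 (Or.inl rfl), hr1 i⟩
  · rw [hdn]
    ext w
    constructor
    · intro h
      exact ⟨0, Finset.mem_singleton_self 0, (Set.mem_singleton_iff.1 h).trans ha0.symm⟩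
    · rintro ⟨i, hi, rfl⟩
      rw [Finset.mem_singleton.1 hi, ha0]
      exact rfl
  · rw [← hupeq]
    ext w
    constructor
    · rintro (h | h | h)
      · refine Or.inr ⟨1, by decide, ?_⟩
        rw [ha1]
        exact h
      · refine Or.inr ⟨2, by decide, ?_⟩
        rw [ha2]
        exact h
      · refine Or.inl ⟨0, Finset.mem_singleton_self 0, ?_⟩
        rw [← hz0]
        exact h
    · rintro (⟨i, hi, rfl⟩ | ⟨i, hi, rfl⟩)
      · rw [Finset.mem_singleton.1 hi, ← hz0]
        exact Or.inr (Or.inr rfl)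
      · have h12 : i = 1 ∨ i = 2 := by
          rw [Finset.mem_singleton] at hi
          omega
        rcases h12 with rfl | rfl
        · rw [ha1]
          exact Or.inl rfl
        · rw [ha2]
          exact Or.inr (Or.inl rfl)
  · intro i hi w hw
    rw [Finset.mem_singleton] at hi
    subst hi
    rw [ha0] at hw
    rcases (hN w).1 hw with h | h | h
    · exact Or.inr ⟨1, by decide, h.trans ha1.symm⟩
    · exact Or.inr ⟨2, by decide, h.trans ha2.symm⟩
    · exact Or.inl (h.trans hz0)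

end Pool.Agent.H20.ER
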