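import Pool.Agent.H48.ER.Targets

/-!
# MP_816b90_co, row PLN: attachment with two vertices which are not adjacent
-/

set_option autoImplicit false

open Pool.Agent.H48.ER

namespace Pool.Agent.H20.ER

variable {V : Type} {G : SimpleGraph V}

/-- pyramids given by three explicit paths -/
theorem pyr3 (hPYR : T_PYR) (hN : NOH G) {c b1 b2 b3 : V} {m1 m2 m3 : ℕ} {R1 R2 R3 : Set V}
    (p1 : IP G m1 c b1 R1) (p2 : IP G m2 c b2 R2) (p3 : IP G m3 c b3 R3)
    (o1 : 1 ≤ m1) (o2 : 1 ≤ m2) (o3 : 1 ≤ m3)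
    (n12 : ¬ (m1 = 1 ∧ m2 = 1)) (n13 : ¬ (m1 = 1 ∧ m3 = 1)) (n23 : ¬ (m2 = 1 ∧ m3 = 1))
    (x12 : ∀ u ∈ R1, ∀ v ∈ R2, u ≠ c → v ≠ c → u ≠ v ∧ (G.Adj u v ↔ u = b1 ∧ v = b2))
    (x13 : ∀ u ∈ R1, ∀ v ∈ R3, u ≠ c → v ≠ c → u ≠ v ∧ (G.Adj u v ↔ u = b1 ∧ v = b3))
    (x23 : ∀ u ∈ R2, ∀ v ∈ R3, u ≠ c → v ≠ c → u ≠ v ∧ (G.Adj u v ↔ u = b2 ∧ v = b3)) :
    False := by
  have s12 : ∀ u ∈ R2, ∀ v ∈ R1, u ≠ c → v ≠ c → u ≠ v ∧ (G.Adj u v ↔ u = b2 ∧ v = b1) := by
    intro u hu v hv h1 h2
    refine ⟨(x12 v hv u hu h2 h1).1.symm, ?_⟩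
    rw [SimpleGraph.adj_comm, (x12 v hv u hu h2 h1).2]
    exact and_comm
  have s13 : ∀ u ∈ R3, ∀ v ∈ R1, u ≠ c → v ≠ c → u ≠ v ∧ (G.Adj u v ↔ u = b3 ∧ v = b1) := by
    intro u hu v hv h1 h2
    refine ⟨(x13 v hv u hu h2 h1).1.symm, ?_⟩
    rw [SimpleGraph.adj_comm, (x13 v hv u hu h2 h1).2]
    exact and_comm
  have s23 : ∀ u ∈ R3, ∀ v ∈ R2, u ≠ c → v ≠ c → u ≠ v ∧ (G.Adj u v ↔ u = b3 ∧ v = b2) := by
    intro u hu v hv h1 h2
    refine ⟨(x23 v hv u hu h2 h1).1.symm, ?_⟩
    rw [SimpleGraph.adj_comm, (x23 v hv u hu h2 h1).2]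
    exact and_comm
  refine hPYR V G c ![b1, b2, b3] ![m1, m2, m3] ![R1, R2, R3] hN ?_ ?_ ?_ ?_
  · intro i
    fin_cases i <;> assumption
  · intro i
    fin_cases i <;> assumption
  · intro i j hij
    fin_cases i <;> fin_cases j <;>
      first
        | exact absurd rfl hij
        | exact n12
        | exact n13
        | exact n23
        | exact fun h => n12 ⟨h.2, h.1⟩
        | exact fun h => n13 ⟨h.2, h.1⟩
        | exact fun h => n23 ⟨h.2, h.1⟩
  · intro i j hij
    fin_cases i <;> fin_cases j <;>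
      first
        | exact absurd rfl hij
        | exact x12
        | exact x13
        | exact x23
        | exact s12
        | exact s13
        | exact s23

/-- the third index -/
theorem third (i j : Fin 3) (hij : i ≠ j) : ∃ k : Fin 3, k ≠ i ∧ k ≠ j := by
  fin_cases i <;> fin_cases j <;> first
    | exact absurd rfl hij
    | exact ⟨0, by decide, by decide⟩
    | exact ⟨1, by decide, by decide⟩
    | exact ⟨2, by decide, by decide⟩

/-- the main case: the part `T` of the rung `P j` from `a j` to the first neighbour `h` of `d'` does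
not contain `b j` -/
theorem core (hPYR : T_PYR) {a b : Fin 3 → V} {n : Fin 3 → ℕ} {P : Fin 3 → Set V} {i j : Fin 3}
    {l : ℕ} {d d' g g' h : V} {R : Set V} (hN : NOH G) (hP : Prism G a b n P) (hij : i ≠ j)
    (hC : Cnr G P i j l d d' R) (hAN : AN G d (n i) (a i) (b i) (P i) g g') {t : ℕ} {T : Set V}
    (hT : IP G t (a j) h T) (hTP : T ⊆ P j) (hbT : b j ∉ T)
    (hd' : ∀ w ∈ T, G.Adj d' w ↔ w = h) :
    G.Adj d (a i) ∧ G.Adj d' (a j) := by
  obtain ⟨k, hki, hkj⟩ := third i j hij
  obtain ⟨hR, hRv, hRa⟩ := hC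
  obtain ⟨i0, j0, R1, R2, h1, h2, -, h1s, h2s, hdis, hne, hd1, hd2⟩ := hAN
  have hdR : d ∈ R := hR.left_mem
  have hd'R : d' ∈ R := hR.right_mem
  have haR1 : a i ∈ R1 := h1.left_mem
  have hbR2 : b i ∈ R2 := h2.right_mem
  have hgR1 : g ∈ R1 := h1.right_mem
  -- the vertices of `R` are outside of the prism
  have hout : ∀ {m : Fin 3} {r v : V}, r ∈ R → v ∈ P m → r ≠ v := by
    intro m r v hr hv e
    exact hRv r hr (e ▸ mem_ver hv)
  have haR2 : ∀ u ∈ R2, u ≠ a i := fun u hu e =>
    Set.disjoint_left.1 hdis haR1 (e ▸ hu)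
  have hbR1 : ∀ u ∈ R1, u ≠ b i := fun u hu e =>
    Set.disjoint_left.1 hdis hu (e ▸ hbR2)
  have hbT' : ∀ u ∈ T, u ≠ b j := fun u hu e => hbT (e ▸ hu)
  -- no edges from `R \ {d}` to the rungs `P i`, `P k`
  have hRi : ∀ r ∈ R, r ≠ d → ∀ v ∈ P i, ¬ G.Adj r v := by
    intro r hr hrd v hv hadj
    rcases hRa r hr v (mem_ver hv) hadj with ⟨e, _⟩ | ⟨_, e⟩
    · exact hrd e
    · exact hij (hP.rung hv e)
  have hRk : ∀ r ∈ R, ∀ v ∈ P k, ¬ G.Adj r v := by
    intro r hr v hv hadj
    rcases hRa r hr v (mem_ver hv) hadj with ⟨_, e⟩ | ⟨_, e⟩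
    · exact hki (hP.rung hv e)
    · exact hkj (hP.rung hv e)
  by_contra hcon
  -- the three paths
  have p1 : IP G (i0 + 1) d (a i) (insert d R1) := by
    refine h1.rev.cons (fun hm => hout hdR (h1s hm) rfl) ?_
    exact hd1
  have p2 : IP G (l + t + 1) d (a j) (R ∪ T) := by
    refine hR.append hT.rev ?_ ?_
    · rw [Set.disjoint_left]
      intro v hv hvT
      exact hout hv (hTP hvT) rfl
    · intro u hu v hv
      constructor
      · intro hadj
        rcases hRa u hu v (mem_ver (hTP hv)) hadj with ⟨_, e⟩ | ⟨e, _⟩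
        · exact absurd (hP.rung e (hTP hv)) hij
        · subst e
          exact ⟨rfl, (hd' v hv).1 hadj⟩
      · rintro ⟨rfl, rfl⟩
        exact (hd' v hv).2 rfl
  have p3 : IP G (j0 + 1 + n k + 1) d (a k) (insert d R2 ∪ P k) := by
    refine (h2.cons (fun hm => hout hdR (h2s hm) rfl) hd2).append (hP.ip k).rev ?_ ?_
    · rw [Set.disjoint_left]
      rintro v (hv | hv) hvk
      · exact hout hdR hvk hv.symm
      · exact hki (hP.rung hvk (h2s hv))
    · rintro u (hu | hu) v hv
      · subst hu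
        constructor
        · intro hadj
          exact absurd hadj (hRk u hdR v hv)
        · rintro ⟨e, _⟩
          exact absurd e (hout hdR (hP.b_mem i))
      · rw [hP.adj i k (Ne.symm hki) u (h2s hu) v hv]
        constructor
        · rintro (⟨e, _⟩ | e)
          · exact absurd e (haR2 u hu)
          · exact e
        · intro e
          exact Or.inr e
  refine pyr3 hPYR hN p1 p2 p3 (by omega) (by omega) (by omega) ?_ ?_ ?_ ?_ ?_ ?_
  · -- the exceptional case
    rintro ⟨e1, e2⟩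
    have ei : i0 = 0 := by omega
    have el : l = 0 := by omega
    have et : t = 0 := by omega
    subst ei el et
    have q1 := h1.eq_of_zero.1
    have q2 := hT.eq_of_zero.1
    refine hcon ⟨(hd1 (a i) haR1).2 q1, (hd' (a j) hT.left_mem).2 q2⟩
  · rintro ⟨e1, e2⟩
    omega
  · rintro ⟨e1, e2⟩
    omega
  · -- paths 1, 2
    rintro u (hu | hu) v hv hud hvd
    · exact absurd hu hud
    · rcases hv with hv | hv
      · refine ⟨(hout hv (h1s hu)).symm, ?_⟩
        constructor
        · intro hadj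
          exact absurd hadj.symm (hRi v hv hvd u (h1s hu))
        · rintro ⟨_, e⟩
          exact absurd e (hout hv (hP.a_mem j))
      · refine ⟨hP.ne_of_mem hij (h1s hu) (hTP hv), ?_⟩
        rw [hP.adj i j hij u (h1s hu) v (hTP hv)]
        constructor
        · rintro (e | ⟨e, _⟩)
          · exact e
          · exact absurd e (hbR1 u hu)
        · intro e
          exact Or.inl e
  · -- paths 1, 3
    rintro u (hu | hu) v hv hud hvd
    · exact absurd hu hud
    · rcases hv with (hv | hv) | hv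
      · exact absurd hv hvd
      · refine ⟨fun e => Set.disjoint_left.1 hdis hu (e ▸ hv), ?_⟩
        constructor
        · intro hadj
          exact absurd hadj (hne u hu v hv)
        · rintro ⟨_, e⟩
          exact absurd (hP.rung (h2s hv) (e ▸ hP.a_mem k)) (Ne.symm hki)
      · refine ⟨hP.ne_of_mem (Ne.symm hki) (h1s hu) hv, ?_⟩
        rw [hP.adj i k (Ne.symm hki) u (h1s hu) v hv]
        constructor
        · rintro (e | ⟨e, _⟩)
          · exact e
          · exact absurd e (hbR1 u hu)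
        · intro e
          exact Or.inl e
  · -- paths 2, 3
    rintro u hu v hv hud hvd
    rcases hu with hu | hu
    · rcases hv with (hv | hv) | hv
      · exact absurd hv hvd
      · refine ⟨hout hu (h2s hv), ?_⟩
        constructor
        · intro hadj
          exact absurd hadj (hRi u hu hud v (h2s hv))
        · rintro ⟨e, _⟩
          exact absurd e (hout hu (hP.a_mem j))
      · refine ⟨hout hu hv, ?_⟩
        constructor
        · intro hadj
          exact absurd hadj (hRk u hu v hv)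
        · rintro ⟨e, _⟩
          exact absurd e (hout hu (hP.a_mem j))
    · rcases hv with (hv | hv) | hv
      · exact absurd hv hvd
      · refine ⟨hP.ne_of_mem (Ne.symm hij) (hTP hu) (h2s hv), ?_⟩
        rw [hP.adj j i (Ne.symm hij) u (hTP hu) v (h2s hv)]
        constructor
        · rintro (⟨_, e⟩ | ⟨e, _⟩)
          · exact absurd e (haR2 v hv)
          · exact absurd e (hbT' u hu)
        · rintro ⟨_, e⟩
          exact absurd (hP.rung (h2s hv) (e ▸ hP.a_mem k)) (Ne.symm hki)
      · refine ⟨hP.ne_of_mem (Ne.symm hkj) (hTP hu) hv, ?_⟩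
        rw [hP.adj j k (Ne.symm hkj) u (hTP hu) v hv]
        constructor
        · rintro (e | ⟨e, _⟩)
          · exact e
          · exact absurd e (hbT' u hu)
        · intro e
          exact Or.inl e

/-- the attachment seen from the other end of the rung -/
theorem AN_rev {c x y g g' : V} {m : ℕ} {S : Set V} (h : AN G c m x y S g g') :
    AN G c m y x S g' g := by
  obtain ⟨i, j, R1, R2, h1, h2, h3, h4, h5, h6, h7, h8, h9⟩ := h
  exact ⟨j, i, R2, R1, h2.rev, h1.rev, by omega, h5, h4, h6.symm,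
    fun u hu v hv hadj => h7 v hv u hu hadj.symm, h9, h8⟩

theorem pf_PLN (hTRI : T_TRI) (hPYR : T_PYR) : T_PLN := by
  intro V G a b n P i j l d d' g g' h R hN hP hij hC hAN hh hadj
  have hd'P : d' ∉ P j := fun hm => hC.2.1 d' hC.1.right_mem (mem_ver hm)
  rcases hTRI V G (n j) (a j) (b j) d' (P j) (hP.ip j) hd'P ⟨h, hh, hadj⟩ with
    ⟨u, p, q, T1, T2, hT1, hT2, -, hun, hint, -, hu⟩ |
    ⟨u, u', p, q, T1, T2, hT1, hT2, -, hun, hdis, -, hu⟩ |
    ⟨u, u', p, q, T1, T2, hT1, hT2, -, hs1, hs2, hdis, -, hu, -⟩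
  · have hs1 : T1 ⊆ P j := by rw [← hun]; exact Set.subset_union_left
    by_cases hb : b j ∈ T1
    · -- `u = b j` is the only neighbour
      have hub : b j = u := by
        have : b j ∈ T1 ∩ T2 := ⟨hb, hT2.right_mem⟩
        rw [hint] at this
        exact this
      right
      have hz : IP G 0 (b j) (b j) {b j} := IP.zero _
      refine core hPYR hN hP.flip hij hC (AN_rev hAN) hz ?_ ?_ ?_
      · intro v hv
        rw [Set.mem_singleton_iff.1 hv]
        exact hP.b_mem j
      · intro hm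
        exact hP.a_ne_b j j (Set.mem_singleton_iff.1 hm)
      · intro w hw
        rw [Set.mem_singleton_iff.1 hw, hu _ (hP.b_mem j)]
        constructor
        · intro _
          rfl
        · intro _
          exact hub
    · left
      exact core hPYR hN hP hij hC hAN hT1 hs1 hb fun w hw => hu w (hs1 hw)
  · left
    have hs1 : T1 ⊆ P j := by rw [← hun]; exact Set.subset_union_left
    refine core hPYR hN hP hij hC hAN hT1 hs1
      (fun hb => Set.disjoint_left.1 hdis hb hT2.right_mem) fun w hw => ?_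
    rw [hu w (hs1 hw)]
    constructor
    · rintro (e | e)
      · exact e
      · exact absurd hT2.left_mem (fun hm => Set.disjoint_left.1 hdis (e ▸ hw) hm)
    · intro e
      exact Or.inl e
  · left
    exact core hPYR hN hP hij hC hAN hT1 hs1
      (fun hb => Set.disjoint_left.1 hdis hb hT2.right_mem) hu

end Pool.Agent.H20.ER
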