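import Pool.Agent.H48.ER.Targets

/-!
# MP_816b90_co, row SB3: another piece outside of the prism
-/

set_option autoImplicit false

open Pool.Agent.H48.ER

namespace Pool.Agent.H20.ER

/-- a nonempty set of indices which misses two indices has one element -/
theorem single_of_two (J : Finset (Fin 3)) (i j : Fin 3) (hij : i ≠ j) (hi : i ∉ J) (hj : j ∉ J)
    (hJ : J.Nonempty) : ∃ k, J = {k} ∧ k ≠ i ∧ k ≠ j ∧ ∀ m, m ≠ k → m = i ∨ m = j := by
  obtain ⟨k, hk⟩ := hJ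
  have hki : k ≠ i := fun e => hi (e ▸ hk)
  have hkj : k ≠ j := fun e => hj (e ▸ hk)
  have hall : ∀ m : Fin 3, m ≠ k → m = i ∨ m = j := by
    intro m hm
    omega
  refine ⟨k, ?_, hki, hkj, hall⟩
  ext m
  rw [Finset.mem_singleton]
  constructor
  · intro hm
    by_contra hmk
    rcases hall m hmk with e | e
    · exact hi (e ▸ hm)
    · exact hj (e ▸ hm)
  · intro e
    exact e ▸ hk

theorem pf_SB3 (hPF : T_PF) (hPLL : T_PLL) : T_SB3 := by
  intro V G a b n P c J D Q D' Q' t hN hNP hS hDP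
  obtain ⟨pc, ⟨a', b', n', P', c', J', pc'⟩, hdis, hdis', hsub, htQ, htQ'⟩ := hS
  obtain ⟨-, -, -, f4, -, -, -, -, f9, -, -, -, -, -⟩ := hPF V G a b n P c J D Q pc
  obtain ⟨g1, g2, -, -, -, -, -, -, -, g10, g11, -, g13, -⟩ :=
    hPF V G a' b' n' P' c' J' D' Q' pc'
  have hPr : Prism G a b n P := pc.pr.1
  have hPr' : Prism G a' b' n' P' := pc'.pr.1
  -- a second common vertex of `Q` and `Q'`
  have hex : ∃ e, e ∈ Q ∧ e ∈ Q' ∧ e ≠ t := by
    by_contra hcon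
    have hsub2 : Q' ⊆ insert t (Q' \ Q) := by
      intro v hv
      by_cases hvt : v = t
      · exact Or.inl hvt
      · right
        refine ⟨hv, fun hvQ => hcon ⟨v, hvQ, hv, hvt⟩⟩
    have hfin : (Q' \ Q).Finite := hsub.finite
    have h1 : Q'.ncard ≤ (insert t (Q' \ Q)).ncard :=
      Set.ncard_le_ncard hsub2 (hfin.insert t)
    have h2 : (insert t (Q' \ Q)).ncard ≤ (Q' \ Q).ncard + 1 := Set.ncard_insert_le t _
    have h3 : (Q' \ Q).ncard ≤ 1 := by
      rw [Set.ncard_le_one hfin]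
      intro u hu v hv
      exact hsub hu hv
    omega
  obtain ⟨e, heQ, heQ', het⟩ := hex
  obtain ⟨i0, j0, hij0, hti, hej⟩ := f9 t htQ e heQ het.symm
  obtain ⟨u, hu, hut⟩ := g11 t htQ'
  obtain ⟨w, hw, hwe⟩ := g11 e heQ'
  have hnotD' : ∀ {i : Fin 3} {v : V}, v ∈ P i → v ∉ D' := fun hv hD =>
    Set.disjoint_left.1 hDP hD (mem_ver hv)
  -- a vertex of the prism with a neighbour in `D'` is in `Q'`
  have hclo : ∀ {i : Fin 3} {v : V}, v ∈ P i → (∃ d ∈ D', G.Adj d v) → v ∈ Q' := by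
    rintro i v hv ⟨d, hd, hadj⟩
    rcases g10 d hd v hadj with h | h
    · exact absurd h (hnotD' hv)
    · exact h
  rcases hPLL V G a b n P D' hN hNP pc.pr g13 hDP
    ⟨i0, j0, hij0, ⟨u, hu, t, hti, hut⟩, ⟨w, hw, e, hej, hwe⟩⟩ with
    ⟨i, j, hij, hi, hj⟩ | ⟨i, j, hij, hi, hj⟩
  · have hiQ : a i ∈ Q' := hclo (hPr.a_mem i) hi
    have hjQ : a j ∈ Q' := hclo (hPr.a_mem j) hj
    have hiJ : i ∉ J := fun h => Set.disjoint_left.1 hdis' hiQ (by rw [pc.hD]; exact ⟨i, h, rfl⟩)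
    have hjJ : j ∉ J := fun h => Set.disjoint_left.1 hdis' hjQ (by rw [pc.hD]; exact ⟨j, h, rfl⟩)
    obtain ⟨k, hJk, hki, hkj, hkall⟩ := single_of_two J i j hij hiJ hjJ pc.ne
    obtain ⟨i1, j1, hi1, hj1, e1, e2⟩ := g1 _ hiQ _ hjQ (hPr.a_adj hij)
    have hij1 : i1 ≠ j1 := by
      rintro rfl
      exact (hPr.a_adj hij).ne (e1.trans e2.symm)
    obtain ⟨m, hJm, hmi, hmj, hmall⟩ := single_of_two J' i1 j1 hij1 hi1 hj1 pc'.ne
    refine ⟨k, a' m, hJk, ?_, ?_, ?_⟩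
    · rw [pc'.hD, hJm]
      ext v
      constructor
      · rintro ⟨i2, h2, rfl⟩
        rw [Finset.mem_singleton.1 h2]
        exact rfl
      · intro hv
        exact ⟨m, Finset.mem_singleton_self m, Set.mem_singleton_iff.1 hv⟩
    · intro i2 h2
      rcases hkall i2 h2 with rfl | rfl
      · exact hiQ
      · exact hjQ
    · intro w
      have hmJ : m ∈ J' := by rw [hJm]; exact Finset.mem_singleton_self m
      rw [pc'.hQ]
      constructor
      · intro hadj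
        rcases pc'.nb m hmJ w hadj with h | ⟨j2, h2, h3⟩
        · exact Or.inl ⟨m, hmJ, h⟩
        · refine Or.inr ⟨j2, ?_, h3⟩
          rw [hJm, Finset.mem_singleton]
          exact h2
      · rintro (⟨i2, h2, rfl⟩ | ⟨i2, h2, rfl⟩)
        · rw [hJm, Finset.mem_singleton] at h2
          subst h2
          exact (pc'.nx i2).1
        · rw [hJm, Finset.mem_singleton] at h2
          exact hPr'.a_adj (Ne.symm h2)
  · exfalso
    have hiQ : b i ∈ Q' := hclo (hPr.b_mem i) hi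
    have hjQ : b j ∈ Q' := hclo (hPr.b_mem j) hj
    exact (hPr.b_adj hij).ne (hsub ⟨hiQ, (f4 i).1⟩ ⟨hjQ, (f4 j).1⟩)

end Pool.Agent.H20.ER
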